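import Pool.Agent.W78.EC.Defs2

/-!
Project EC, part P5: from characters to residue classes.
-/

set_option autoImplicit false

namespace Pool.Agent.W605.EC.P5

open Finset Filter
open Pool.Agent.H376R2.MR
open Pool.Agent.W78.GA
open Pool.Agent.W78.EC

lemma hD : (0 : ℤ) ^ 2 < 4 * 1 := by norm_num

/-! ### The residue ring -/

/-- the residue ring `ℤ[i]/M` -/
abbrev RM (M : ℕ) := QuadraticAlgebra (ZMod M) (-1) 0

/-- reduction modulo `M` -/
def red (M : ℕ) : Gi →+* RM M where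
  toFun z := ⟨(z.re : ZMod M), (z.im : ZMod M)⟩
  map_one' := by
    apply QuadraticAlgebra.ext
    · simp only [QuadraticAlgebra.re_one, Int.cast_one]
    · simp only [QuadraticAlgebra.im_one, Int.cast_zero]
  map_mul' z w := by
    apply QuadraticAlgebra.ext
    · simp only [QuadraticAlgebra.re_mul]; push_cast; ring
    · simp only [QuadraticAlgebra.im_mul]; push_cast; ring
  map_zero' := by
    apply QuadraticAlgebra.ext
    · simp only [QuadraticAlgebra.re_zero, Int.cast_zero]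
    · simp only [QuadraticAlgebra.im_zero, Int.cast_zero]
  map_add' z w := by
    apply QuadraticAlgebra.ext
    · simp only [QuadraticAlgebra.re_add]; push_cast; ring
    · simp only [QuadraticAlgebra.im_add]; push_cast; ring

lemma red_re (M : ℕ) (z : Gi) : (red M z).re = (z.re : ZMod M) := rfl
lemma red_im (M : ℕ) (z : Gi) : (red M z).im = (z.im : ZMod M) := rfl

lemma red_eq {M : ℕ} {z z' : Gi} :
    red M z = red M z' ↔ (M : ℤ) ∣ z.re - z'.re ∧ (M : ℤ) ∣ z.im - z'.im := by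
  rw [QuadraticAlgebra.ext_iff, red_re, red_re, red_im, red_im, eq_comm,
    @eq_comm _ (z.im : ZMod M), ZMod.intCast_eq_intCast_iff_dvd_sub,
    ZMod.intCast_eq_intCast_iff_dvd_sub]

lemma red_surj (M : ℕ) : Function.Surjective (red M) := by
  intro a
  obtain ⟨x, hx⟩ := ZMod.intCast_surjective a.re
  obtain ⟨y, hy⟩ := ZMod.intCast_surjective a.im
  refine ⟨⟨x, y⟩, ?_⟩
  apply QuadraticAlgebra.ext
  · rw [red_re]; exact hx
  · rw [red_im]; exact hy

instance finiteRM (M : ℕ) [NeZero M] : Finite (RM M) :=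
  Finite.of_equiv _ (QuadraticAlgebra.equivProd (-1 : ZMod M) 0).symm

lemma isUnit_red {M : ℕ} {z : Gi} : IsUnit (red M z) ↔ IsCoprime z (M : Gi) := by
  constructor
  · intro h
    obtain ⟨b, hb⟩ := h.exists_right_inv
    obtain ⟨w, rfl⟩ := red_surj M b
    rw [← map_mul, ← map_one (red M), red_eq] at hb
    have h1 : (M : Gi) ∣ z * w - 1 := by
      rw [natCast_dvd]
      exact ⟨by rw [QuadraticAlgebra.re_sub]; exact hb.1, by
        rw [QuadraticAlgebra.im_sub]; exact hb.2⟩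
    obtain ⟨v, hv⟩ := h1
    refine ⟨w, -v, ?_⟩
    have : z * w = (M : Gi) * v + 1 := by rw [← hv]; ring
    calc w * z + -v * (M : Gi) = z * w - (M : Gi) * v := by ring
      _ = 1 := by rw [this]; ring
  · rintro ⟨a, b, hab⟩
    have h1 := congrArg (red M) hab
    rw [map_add, map_mul, map_mul, map_one, map_natCast] at h1
    have h2 : ((M : ℕ) : RM M) = 0 := by
      apply QuadraticAlgebra.ext
      · rw [QuadraticAlgebra.re_natCast, ZMod.natCast_self, QuadraticAlgebra.re_zero]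
      · rw [QuadraticAlgebra.im_natCast, QuadraticAlgebra.im_zero]
    rw [h2, mul_zero, add_zero] at h1
    exact IsUnit.of_mul_eq_one_right _ h1

/-! ### Small functions -/

/-- the sum of the Liouville function of the norm times `f` -/
noncomputable def TT' (X : ℝ) (f : Gi → ℂ) : ℂ := ∑ z ∈ ball 0 1 X, (gl z : ℂ) * f z

/-- mean value zero -/
def Small (f : Gi → ℂ) : Prop := ∀ ε : ℝ, 0 < ε → ∃ X₀ : ℝ, ∀ X : ℝ, X₀ ≤ X →
  ‖TT' X f‖ ≤ ε * X

lemma TT'_add (X : ℝ) (f g : Gi → ℂ) : TT' X (fun z => f z + g z) = TT' X f + TT' X g := by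
  unfold TT'
  rw [← Finset.sum_add_distrib]
  exact Finset.sum_congr rfl fun z _ => by ring

lemma TT'_smul (X : ℝ) (a : ℂ) (f : Gi → ℂ) : TT' X (fun z => a * f z) = a * TT' X f := by
  unfold TT'
  rw [Finset.mul_sum]
  exact Finset.sum_congr rfl fun z _ => by ring

lemma Small.add {f g : Gi → ℂ} (hf : Small f) (hg : Small g) : Small (fun z => f z + g z) := by
  intro ε hε
  obtain ⟨X₁, h1⟩ := hf (ε / 2) (by linarith)
  obtain ⟨X₂, h2⟩ := hg (ε / 2) (by linarith)
  refine ⟨max X₁ X₂, fun X hX => ?_⟩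
  rw [TT'_add]
  have e1 := h1 X ((le_max_left _ _).trans hX)
  have e2 := h2 X ((le_max_right _ _).trans hX)
  calc ‖TT' X f + TT' X g‖ ≤ ‖TT' X f‖ + ‖TT' X g‖ := norm_add_le _ _
    _ ≤ ε / 2 * X + ε / 2 * X := by linarith
    _ = ε * X := by ring

lemma Small.smul {f : Gi → ℂ} (hf : Small f) (a : ℂ) : Small (fun z => a * f z) := by
  intro ε hε
  have ha : 0 < ‖a‖ + 1 := by positivity
  obtain ⟨X₁, h1⟩ := hf (ε / (‖a‖ + 1)) (by positivity)
  refine ⟨X₁, fun X hX => ?_⟩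
  rw [TT'_smul, norm_mul]
  have e1 := h1 X hX
  have e2 : 0 ≤ ‖TT' X f‖ := norm_nonneg _
  calc ‖a‖ * ‖TT' X f‖ ≤ (‖a‖ + 1) * ‖TT' X f‖ := by nlinarith
    _ ≤ (‖a‖ + 1) * (ε / (‖a‖ + 1) * X) := mul_le_mul_of_nonneg_left e1 ha.le
    _ = ε * X := by field_simp

lemma small_zero : Small (fun _ => 0) := by
  intro ε hε
  refine ⟨0, fun X hX => ?_⟩
  unfold TT'
  simp only [mul_zero, Finset.sum_const_zero, norm_zero]
  positivity

lemma Small.sum {ι : Type} (s : Finset ι) {f : ι → Gi → ℂ} (hf : ∀ i ∈ s, Small (f i)) :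
    Small (fun z => ∑ i ∈ s, f i z) := by
  classical
  induction s using Finset.induction_on with
  | empty => simpa using small_zero
  | insert a s ha ih =>
    have h1 := (hf a (Finset.mem_insert_self a s)).add
      (ih fun i hi => hf i (Finset.mem_insert_of_mem hi))
    have h2 : (fun z => ∑ i ∈ insert a s, f i z) = fun z => f a z + ∑ i ∈ s, f i z := by
      funext z; exact Finset.sum_insert ha
    rw [h2]; exact h1

/-! ### The characters -/

lemma gl_mul {z w : Gi} (hz : z ≠ 0) (hw : w ≠ 0) : gl (z * w) = gl z * gl w := by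
  unfold gl
  rw [nm_mul, lam_mul (nm_pos hD hz).ne' (nm_pos hD hw).ne']

lemma nm_I : nm (⟨0, 1⟩ : Gi) = 1 := by decide

lemma small_char (h : S_LMEAN) {M : ℕ} (hM : 1 ≤ M) (χ : MulChar (RM M) ℂ) :
    Small (fun z => χ (red M z)) := by
  by_cases hi : χ (red M ⟨0, 1⟩) = 1
  · apply h M _ hM
    refine ⟨?_, ?_, ?_, hi, ?_⟩
    · intro z z' h1 h2
      rw [(red_eq (M := M)).2 ⟨h1, h2⟩]
    · intro z z'
      rw [map_mul, map_mul]
    · rw [map_one, map_one]
    · intro z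
      rw [← isUnit_red (M := M)]
      constructor
      · intro h1
        by_contra h2
        exact h1 (χ.map_nonunit h2)
      · intro h1
        exact (h1.map χ).ne_zero
  · intro ε hε
    refine ⟨0, fun X hX => ?_⟩
    have hI1 : (⟨0, 1⟩ : Gi) * ⟨0, -1⟩ = 1 := by decide
    have hI2 : (⟨0, -1⟩ : Gi) * ⟨0, 1⟩ = 1 := by decide
    have hn2 : nm (⟨0, -1⟩ : Gi) = 1 := by decide
    have hz : ∀ z ∈ ball 0 1 X, z ≠ 0 := fun z hz => (one_le_nm hD).1 ((mem_ball hD).1 hz).1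
    have h1 : TT' X (fun z => χ (red M z)) =
        χ (red M ⟨0, 1⟩) * TT' X (fun z => χ (red M z)) := by
      conv_lhs => unfold TT'
      unfold TT'
      rw [Finset.mul_sum]
      symm
      apply Finset.sum_nbij' (fun z => (⟨0, 1⟩ : Gi) * z) (fun z => (⟨0, -1⟩ : Gi) * z)
      · intro z hz
        rw [mem_ball hD] at hz ⊢
        rw [nm_mul, nm_I, one_mul]; exact hz
      · intro z hz
        rw [mem_ball hD] at hz ⊢
        rw [nm_mul, hn2, one_mul]; exact hz
      · intro z _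
        rw [← mul_assoc, hI2, one_mul]
      · intro z _
        rw [← mul_assoc, hI1, one_mul]
      · intro z _
        have : gl ((⟨0, 1⟩ : Gi) * z) = gl z := by
          unfold gl; rw [nm_mul, nm_I, one_mul]
        rw [this]
        beta_reduce
        rw [map_mul, map_mul]; ring
    have h2 : TT' X (fun z => χ (red M z)) = 0 := by
      have h3 : (1 - χ (red M ⟨0, 1⟩)) * TT' X (fun z => χ (red M z)) = 0 := by
        rw [sub_mul, one_mul, ← h1, sub_self]
      rcases mul_eq_zero.1 h3 with h4 | h4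
      · exact absurd (sub_eq_zero.1 h4).symm hi
      · exact h4
    rw [h2, norm_zero]
    positivity

/-! ### Orthogonality -/

lemma small_unit_class (h : S_LMEAN) {M : ℕ} (hM : 1 ≤ M) (a : (RM M)ˣ) :
    Small (fun z => open scoped Classical in if red M z = (a : RM M) then 1 else 0) := by
  classical
  have : NeZero M := ⟨by omega⟩
  have : Fintype (MulChar (RM M) ℂ) := Fintype.ofFinite _
  have horth : ∀ u : RM M, ∑ χ : MulChar (RM M) ℂ, χ u =
      if u = 1 then (Fintype.card (MulChar (RM M) ℂ) : ℂ) else 0 := by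
    intro u
    split_ifs with hu
    · rw [hu]; simp
    · obtain ⟨χ, hχ⟩ := MulChar.exists_apply_ne_one_of_hasEnoughRootsOfUnity (RM M) ℂ hu
      refine eq_zero_of_mul_eq_self_left hχ ?_
      simp only [Finset.mul_sum, ← MulChar.mul_apply]
      exact Fintype.sum_bijective _ (Group.mulLeft_bijective χ) _ _ fun χ' => rfl
  have hcard : (Fintype.card (MulChar (RM M) ℂ) : ℂ) ≠ 0 := by
    have : Nonempty (MulChar (RM M) ℂ) := ⟨1⟩
    exact_mod_cast Fintype.card_ne_zero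
  have hsm := Small.sum (Finset.univ : Finset (MulChar (RM M) ℂ))
    (f := fun χ z => ((Fintype.card (MulChar (RM M) ℂ) : ℂ)⁻¹ * χ ((a⁻¹ : (RM M)ˣ) : RM M)) *
      χ (red M z)) (fun χ _ => (small_char h hM χ).smul _)
  convert hsm using 2 with z
  have h1 : ∀ χ : MulChar (RM M) ℂ, ((Fintype.card (MulChar (RM M) ℂ) : ℂ)⁻¹ *
      χ ((a⁻¹ : (RM M)ˣ) : RM M)) * χ (red M z) =
      (Fintype.card (MulChar (RM M) ℂ) : ℂ)⁻¹ * χ (((a⁻¹ : (RM M)ˣ) : RM M) * red M z) := by
    intro χ; rw [map_mul]; ring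
  simp_rw [h1]
  rw [← Finset.mul_sum, horth]
  have h2 : (((a⁻¹ : (RM M)ˣ) : RM M) * red M z = 1) ↔ red M z = (a : RM M) := by
    constructor
    · intro h3
      calc red M z = (a : RM M) * (((a⁻¹ : (RM M)ˣ) : RM M) * red M z) := by
            rw [← mul_assoc, Units.mul_inv, one_mul]
        _ = (a : RM M) := by rw [h3, mul_one]
    · intro h3
      rw [h3, Units.inv_mul]
  rw [if_congr h2 rfl rfl]
  split_ifs
  · rw [inv_mul_cancel₀ hcard]
  · rw [mul_zero]

/-- functions which are periodic modulo `M` -/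
def PerM (M : ℕ) (F : Gi → ℂ) : Prop := ∀ z z' : Gi, red M z = red M z' → F z = F z'

lemma small_units (h : S_LMEAN) {M : ℕ} (hM : 1 ≤ M) {F : Gi → ℂ} (hF : PerM M F)
    (h0 : ∀ z : Gi, ¬ IsCoprime z (M : Gi) → F z = 0) : Small F := by
  classical
  have : NeZero M := ⟨by omega⟩
  have : Fintype (RM M)ˣ := Fintype.ofFinite _
  obtain ⟨rep, hrep⟩ := (red_surj M).hasRightInverse
  have hsm := Small.sum (Finset.univ : Finset (RM M)ˣ)
    (f := fun a z => F (rep a) * (if red M z = (a : RM M) then 1 else 0))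
    (fun a _ => (small_unit_class h hM a).smul _)
  convert hsm using 2 with z
  by_cases hz : IsUnit (red M z)
  · rw [Finset.sum_eq_single_of_mem hz.unit (Finset.mem_univ _)]
    · rw [IsUnit.unit_spec, if_pos rfl, mul_one]
      exact hF _ _ (hrep _).symm
    · intro b _ hb
      rw [if_neg, mul_zero]
      intro h1
      apply hb
      apply Units.ext
      rw [IsUnit.unit_spec, h1]
  · rw [h0 z (fun h1 => hz (isUnit_red.2 h1))]
    symm
    apply Finset.sum_eq_zero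
    intro b _
    rw [if_neg, mul_zero]
    intro h1
    exact hz (h1 ▸ b.isUnit)

/-! ### Counting -/

lemma card_ball {X : ℝ} (hX : 0 ≤ X) : ((ball 0 1 X).card : ℝ) ≤ 9 * X := by
  rcases lt_or_ge X 1 with h1 | h1
  · have : ball 0 1 X = ∅ := by
      rw [Finset.eq_empty_iff_forall_notMem]
      intro z hz
      rw [mem_ball hD] at hz
      have : (1 : ℝ) ≤ nm z := by exact_mod_cast hz.1
      linarith [hz.2]
    rw [this]; simp; exact hX
  · set s := Nat.sqrt ⌊X⌋₊ with hs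
    have hf1 : 1 ≤ ⌊X⌋₊ := Nat.le_floor (by exact_mod_cast h1)
    have hs1 : 1 ≤ s := by
      rw [hs, Nat.le_sqrt]; simpa using hf1
    have hsub : ball 0 1 X ⊆ ((Icc (-(s : ℤ)) s) ×ˢ (Icc (-(s : ℤ)) s)).image
        (fun p => (⟨p.1, p.2⟩ : Gi)) := by
      intro z hz
      rw [mem_ball hD] at hz
      have h2 : nm z ≤ ⌊X⌋₊ := Nat.le_floor hz.2
      have h3 := nm_cast hD z
      have h4 : (nm z : ℤ) ≤ (⌊X⌋₊ : ℤ) := by exact_mod_cast h2
      have key : ∀ x : ℤ, x ^ 2 ≤ (⌊X⌋₊ : ℤ) → x ∈ Icc (-(s : ℤ)) s := by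
        intro x hx
        have h5 : x.natAbs ≤ s := by
          rw [hs, Nat.le_sqrt]
          have : ((x.natAbs * x.natAbs : ℕ) : ℤ) ≤ (⌊X⌋₊ : ℤ) := by
            rw [Nat.cast_mul, Int.natAbs_mul_self', ← sq]; exact hx
          exact_mod_cast this
        rw [mem_Icc]
        constructor <;> omega
      rw [mem_image]
      refine ⟨(z.re, z.im), ?_, rfl⟩
      rw [mem_product]
      exact ⟨key _ (by nlinarith [sq_nonneg z.im]), key _ (by nlinarith [sq_nonneg z.re])⟩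
    have hc : (ball 0 1 X).card ≤ (2 * s + 1) * (2 * s + 1) := by
      refine (card_le_card hsub).trans (card_image_le.trans ?_)
      rw [card_product, Int.card_Icc]
      have : ((s : ℤ) + 1 - -(s : ℤ)).toNat = 2 * s + 1 := by omega
      rw [this]
    have h2 : s * s ≤ ⌊X⌋₊ := Nat.sqrt_le _
    have h3 : (ball 0 1 X).card ≤ 9 * ⌊X⌋₊ := by nlinarith
    calc ((ball 0 1 X).card : ℝ) ≤ ((9 * ⌊X⌋₊ : ℕ) : ℝ) := by exact_mod_cast h3
      _ = 9 * (⌊X⌋₊ : ℝ) := by push_cast; ring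
      _ ≤ 9 * X := by
          have := Nat.floor_le hX
          linarith

lemma norm_gl (z : Gi) : ‖(gl z : ℂ)‖ = 1 := by
  rcases gl_eq z with h | h <;> rw [h] <;> simp

lemma norm_TT' {X : ℝ} (hX : 0 ≤ X) {F : Gi → ℂ} (hF : ∀ z, ‖F z‖ ≤ 1) : ‖TT' X F‖ ≤ 9 * X := by
  unfold TT'
  refine (norm_sum_le _ _).trans ?_
  calc ∑ z ∈ ball 0 1 X, ‖(gl z : ℂ) * F z‖ ≤ ∑ _z ∈ ball 0 1 X, (1 : ℝ) := by
        apply Finset.sum_le_sum
        intro z _
        rw [norm_mul, norm_gl, one_mul]; exact hF z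
    _ = ((ball 0 1 X).card : ℝ) := by simp
    _ ≤ 9 * X := card_ball hX

/-! ### Dilation -/

lemma dil {δ : Gi} (hδ : δ ≠ 0) (X : ℝ) (F : Gi → ℂ) :
    TT' X (fun z => open scoped Classical in if δ ∣ z then F z else 0) =
      (gl δ : ℂ) * TT' (X / nm δ) (fun z => F (δ * z)) := by
  classical
  unfold TT'
  have hn : (0 : ℝ) < nm δ := nm_posR hD hδ
  have h1 : (ball 0 1 X).filter (fun z => δ ∣ z) = (ball 0 1 (X / nm δ)).image (fun z => δ * z) := by
    ext z
    rw [mem_filter, mem_image, mem_ball hD]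
    constructor
    · rintro ⟨⟨h2, h3⟩, w, rfl⟩
      refine ⟨w, ?_, rfl⟩
      rw [mem_ball hD]
      rw [nm_mul] at h2 h3
      refine ⟨Nat.one_le_iff_ne_zero.2 fun h0 => ?_, ?_⟩
      · rw [h0, mul_zero] at h2; omega
      · rw [le_div_iff₀ hn]
        push_cast at h3
        linarith
    · rintro ⟨w, hw, rfl⟩
      rw [mem_ball hD] at hw
      refine ⟨⟨?_, ?_⟩, dvd_mul_right _ _⟩
      · rw [nm_mul]
        exact Nat.mul_pos (nm_pos hD hδ) hw.1
      · rw [nm_mul]; push_cast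
        have := hw.2
        rw [le_div_iff₀ hn] at this
        linarith
  have h2 : ∑ z ∈ ball 0 1 X, (gl z : ℂ) * (if δ ∣ z then F z else 0) =
      ∑ z ∈ (ball 0 1 X).filter (fun z => δ ∣ z), (gl z : ℂ) * F z := by
    rw [Finset.sum_filter]
    apply Finset.sum_congr rfl
    intro z _
    split_ifs <;> simp
  rw [h2, h1, Finset.sum_image, Finset.mul_sum]
  · apply Finset.sum_congr rfl
    intro z hz
    rw [mem_ball hD] at hz
    rw [gl_mul hδ ((one_le_nm hD).1 hz.1)]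
    push_cast; ring
  · intro z _ w _ hzw
    have h3 : δ * (z - w) = 0 := by rw [mul_sub]; exact sub_eq_zero.2 hzw
    have h4 : nm δ * nm (z - w) = 0 := by rw [← nm_mul, h3, nm_zero]
    rcases Nat.mul_eq_zero.1 h4 with h5 | h5
    · exact absurd ((nm_eq_zero hD).1 h5) hδ
    · exact sub_eq_zero.1 ((nm_eq_zero hD).1 h5)

/-! ### Removing divisors -/

/-- functions which are periodic modulo `M` and vanish at the multiples of the elements of `D` -/
def WD (M : ℕ) (D : Finset Gi) (F : Gi → ℂ) : Prop :=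
  PerM M F ∧ ∀ z, (∃ δ ∈ D, δ ∣ z) → F z = 0

lemma dvd_of_red {M : ℕ} {δ z z' : Gi} (hδ : δ ∣ (M : Gi)) (h : red M z = red M z')
    (hz : δ ∣ z) : δ ∣ z' := by
  rw [red_eq] at h
  have h1 : (M : Gi) ∣ z - z' := by
    rw [natCast_dvd]
    exact ⟨by rw [QuadraticAlgebra.re_sub]; exact h.1, by rw [QuadraticAlgebra.im_sub]; exact h.2⟩
  have h2 : z' = z - (z - z') := by ring
  rw [h2]
  exact dvd_sub hz (hδ.trans h1)

lemma step1 {M : ℕ} {D : Finset Gi} {δ : Gi} (hδM : δ ∣ (M : Gi)) (hδ : 2 ≤ nm δ)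
    (hcl : ∀ F, WD M (insert δ D) F → Small F) :
    ∀ k : ℕ, ∀ F, WD M D F → (∀ z, ‖F z‖ ≤ 1) → ∃ X₀ : ℝ, ∀ X : ℝ, X₀ ≤ X →
      ‖TT' X F‖ ≤ 9 * (3 / 4) ^ k * X := by
  classical
  have hδ0 : δ ≠ 0 := by
    rintro rfl
    rw [nm_zero] at hδ; omega
  intro k
  induction k with
  | zero =>
    intro F _ hF1
    refine ⟨0, fun X hX => ?_⟩
    rw [pow_zero, mul_one]
    exact norm_TT' hX hF1
  | succ k ih =>
    intro F hF hF1
    have hp : (0 : ℝ) < 9 * (3 / 4) ^ k := by positivity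
    obtain ⟨X₁, h1⟩ := hcl (fun z => if δ ∣ z then 0 else F z) (by
      refine ⟨?_, ?_⟩
      · intro z z' hzz
        have e1 : δ ∣ z ↔ δ ∣ z' := ⟨dvd_of_red hδM hzz, dvd_of_red hδM hzz.symm⟩
        simp only [e1, hF.1 z z' hzz]
      · rintro z ⟨d, hd, hdz⟩
        change (if δ ∣ z then 0 else F z) = 0
        rcases Finset.mem_insert.1 hd with rfl | hd
        · rw [if_pos hdz]
        · split_ifs
          · rfl
          · exact hF.2 z ⟨d, hd, hdz⟩) (9 * (3 / 4) ^ k / 4) (by positivity)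
    obtain ⟨X₂, h2⟩ := ih (fun z => F (δ * z)) (by
      refine ⟨?_, ?_⟩
      · intro z z' hzz
        apply hF.1
        rw [map_mul, map_mul, hzz]
      · rintro z ⟨d, hd, hdz⟩
        exact hF.2 _ ⟨d, hd, hdz.mul_left δ⟩) (fun z => hF1 _)
    have hn : (2 : ℝ) ≤ nm δ := by exact_mod_cast hδ
    refine ⟨max (max X₁ (X₂ * nm δ)) 0, fun X hX => ?_⟩
    have hX1 : X₁ ≤ X := (le_max_left _ _).trans ((le_max_left _ _).trans hX)
    have hX2 : X₂ * nm δ ≤ X := (le_max_right _ _).trans ((le_max_left _ _).trans hX)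
    have hX0 : 0 ≤ X := (le_max_right _ _).trans hX
    have e1 : TT' X F = TT' X (fun z => if δ ∣ z then 0 else F z) +
        TT' X (fun z => if δ ∣ z then F z else 0) := by
      rw [← TT'_add]
      congr 1
      funext z
      split_ifs <;> simp
    have e2 : ‖TT' X (fun z => if δ ∣ z then F z else 0)‖ ≤ 9 * (3 / 4) ^ k * (X / nm δ) := by
      have e3 := dil hδ0 X F
      have e4 : TT' X (fun z => if δ ∣ z then F z else 0) =
          (gl δ : ℂ) * TT' (X / nm δ) (fun z => F (δ * z)) := by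
        rw [← e3]
      rw [e4, norm_mul, norm_gl, one_mul]
      apply h2
      rw [le_div_iff₀ (by linarith)]
      exact hX2
    have e5 : X / nm δ ≤ X / 2 := div_le_div_of_nonneg_left hX0 (by norm_num) hn
    have e6 : 9 * (3 / 4) ^ k * (X / nm δ) ≤ 9 * (3 / 4) ^ k * (X / 2) :=
      mul_le_mul_of_nonneg_left e5 hp.le
    calc ‖TT' X F‖ ≤ ‖TT' X (fun z => if δ ∣ z then 0 else F z)‖ +
          ‖TT' X (fun z => if δ ∣ z then F z else 0)‖ := by rw [e1]; exact norm_add_le _ _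
      _ ≤ 9 * (3 / 4) ^ k / 4 * X + 9 * (3 / 4) ^ k * (X / 2) :=
          add_le_add (h1 X hX1) (e2.trans e6)
      _ = 9 * (3 / 4) ^ (k + 1) * X := by rw [pow_succ]; ring

lemma perM_bounded {M : ℕ} (hM : 1 ≤ M) {F : Gi → ℂ} (hF : PerM M F) :
    ∃ B : ℝ, 0 < B ∧ ∀ z, ‖F z‖ ≤ B := by
  classical
  have : NeZero M := ⟨by omega⟩
  have : Fintype (RM M) := Fintype.ofFinite _
  obtain ⟨rep, hrep⟩ := (red_surj M).hasRightInverse
  refine ⟨∑ a : RM M, ‖F (rep a)‖ + 1, ?_, fun z => ?_⟩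
  · have : 0 ≤ ∑ a : RM M, ‖F (rep a)‖ := Finset.sum_nonneg fun _ _ => norm_nonneg _
    linarith
  · rw [hF z (rep (red M z)) (hrep _).symm]
    have := Finset.single_le_sum (f := fun a : RM M => ‖F (rep a)‖)
      (fun _ _ => norm_nonneg _) (Finset.mem_univ (red M z))
    linarith

lemma step2 {M : ℕ} (hM : 1 ≤ M) {D : Finset Gi} {δ : Gi} (hδM : δ ∣ (M : Gi)) (hδ : 2 ≤ nm δ)
    (hcl : ∀ F, WD M (insert δ D) F → Small F) : ∀ F, WD M D F → Small F := by
  intro F hF
  obtain ⟨B, hB, hFB⟩ := perM_bounded hM hF.1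
  have hB' : (B : ℂ) ≠ 0 := by exact_mod_cast hB.ne'
  have hs : Small (fun z => (B : ℂ)⁻¹ * F z) := by
    intro ε hε
    obtain ⟨k, hk⟩ := exists_pow_lt_of_lt_one (show (0 : ℝ) < ε / 9 by positivity)
      (show (3 / 4 : ℝ) < 1 by norm_num)
    obtain ⟨X₀, h0⟩ := step1 hδM hδ hcl k (fun z => (B : ℂ)⁻¹ * F z) (by
      refine ⟨?_, ?_⟩
      · intro z z' hzz
        simp only [hF.1 z z' hzz]
      · intro z hz
        simp only [hF.2 z hz, mul_zero]) (by
      intro z
      rw [norm_mul, norm_inv, Complex.norm_real, Real.norm_eq_abs, abs_of_pos hB,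
        inv_mul_le_iff₀ hB, mul_one]
      exact hFB z)
    refine ⟨max X₀ 0, fun X hX => ?_⟩
    refine (h0 X ((le_max_left _ _).trans hX)).trans ?_
    apply mul_le_mul_of_nonneg_right _ ((le_max_right _ _).trans hX)
    linarith
  have h2 := hs.smul (B : ℂ)
  have h3 : (fun z => (B : ℂ) * ((B : ℂ)⁻¹ * F z)) = F := by
    funext z
    rw [← mul_assoc, mul_inv_cancel₀ hB', one_mul]
  rwa [h3] at h2

lemma step3 {M : ℕ} (hM : 1 ≤ M) (D : Finset Gi) (hD' : ∀ δ ∈ D, δ ∣ (M : Gi) ∧ 2 ≤ nm δ)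
    (hcl : ∀ F, WD M D F → Small F) : ∀ F, WD M ∅ F → Small F := by
  classical
  induction D using Finset.induction_on with
  | empty => exact hcl
  | insert δ D _ ih =>
    apply ih (fun d hd => hD' d (Finset.mem_insert_of_mem hd))
    have h1 := hD' δ (Finset.mem_insert_self δ D)
    exact step2 hM h1.1 h1.2 hcl

/-! ### Greatest common divisors -/

/-- the isomorphism with the ring of Gaussian integers of Mathlib -/
def gi : Gi ≃+* GaussianInt where
  toFun z := ⟨z.re, z.im⟩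
  invFun z := ⟨z.re, z.im⟩
  left_inv z := rfl
  right_inv z := rfl
  map_mul' z w := by
    apply Zsqrtd.ext
    · simp only [QuadraticAlgebra.re_mul, Zsqrtd.re_mul]
    · simp only [QuadraticAlgebra.im_mul, Zsqrtd.im_mul]; ring
  map_add' z w := by
    apply Zsqrtd.ext
    · simp only [QuadraticAlgebra.re_add, Zsqrtd.re_add]
    · simp only [QuadraticAlgebra.im_add, Zsqrtd.im_add]

lemma exists_divisor {M : ℕ} (hM : 1 ≤ M) {z : Gi} (h : ¬ IsCoprime z (M : Gi)) :
    ∃ δ : Gi, δ ∣ z ∧ δ ∣ (M : Gi) ∧ 2 ≤ nm δ := by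
  have h1 : ¬ IsCoprime (gi z) (gi (M : Gi)) := by
    intro h2
    apply h
    have h3 := h2.map (gi.symm : GaussianInt →+* Gi)
    simpa using h3
  rw [← EuclideanDomain.gcd_isUnit_iff] at h1
  set d := EuclideanDomain.gcd (gi z) (gi (M : Gi)) with hd
  have e1 : gi.symm d ∣ z := by
    have := map_dvd gi.symm (EuclideanDomain.gcd_dvd_left (gi z) (gi (M : Gi)))
    rwa [RingEquiv.symm_apply_apply] at this
  have e2 : gi.symm d ∣ (M : Gi) := by
    have := map_dvd gi.symm (EuclideanDomain.gcd_dvd_right (gi z) (gi (M : Gi)))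
    rwa [RingEquiv.symm_apply_apply] at this
  refine ⟨gi.symm d, e1, e2, ?_⟩
  by_contra hlt
  have h3 : nm (gi.symm d) = 0 ∨ nm (gi.symm d) = 1 := by omega
  rcases h3 with h3 | h3
  · rw [nm_eq_zero hD] at h3
    rw [h3, zero_dvd_iff] at e2
    have h4 : nm ((M : ℕ) : Gi) = 0 := by rw [e2, nm_zero]
    rw [nm_natCast] at h4
    have := pow_eq_zero_iff (two_ne_zero) |>.1 h4
    omega
  · apply h1
    have h4 : IsUnit (gi.symm d) := by
      refine IsUnit.of_mul_eq_one (star (gi.symm d)) ?_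
      rw [mul_star_self' hD, h3, Nat.cast_one]
    have h5 := h4.map gi
    rwa [RingEquiv.apply_symm_apply] at h5

theorem pntg (h : S_LMEAN) : S_PNTG := by
  classical
  intro M r₁ r₂ hM
  have hcl : ∀ F, WD M ((ball 0 1 ((M : ℝ) ^ 2)).filter
      (fun δ => δ ∣ (M : Gi) ∧ 2 ≤ nm δ)) F → Small F := by
    intro F hF
    apply small_units h hM hF.1
    intro z hz
    obtain ⟨δ, h1, h2, h3⟩ := exists_divisor hM hz
    apply hF.2
    refine ⟨δ, ?_, h1⟩
    rw [mem_filter, mem_ball hD]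
    refine ⟨⟨by omega, ?_⟩, h2, h3⟩
    have h4 := nm_dvd h2
    rw [nm_natCast] at h4
    have h5 : nm δ ≤ M ^ 2 := Nat.le_of_dvd (by positivity) h4
    exact_mod_cast h5
  have hall := step3 hM _ (fun δ hδ => (mem_filter.1 hδ).2) hcl
  have hF := hall (fun z => if (M : ℤ) ∣ z.re - r₁ ∧ (M : ℤ) ∣ z.im - r₂ then 1 else 0) (by
    refine ⟨?_, ?_⟩
    · intro z z' hzz
      have e1 : ((M : ℤ) ∣ z.re - r₁ ∧ (M : ℤ) ∣ z.im - r₂) ↔ red M z = red M ⟨r₁, r₂⟩ := by
        rw [red_eq]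
      have e2 : ((M : ℤ) ∣ z'.re - r₁ ∧ (M : ℤ) ∣ z'.im - r₂) ↔ red M z' = red M ⟨r₁, r₂⟩ := by
        rw [red_eq]
      simp only [e1, e2, hzz]
    · rintro z ⟨δ, hδ, _⟩
      simp at hδ)
  intro ε hε
  obtain ⟨X₀, h0⟩ := hF ε hε
  refine ⟨X₀, fun X hX => ?_⟩
  have h1 := h0 X hX
  have h2 : TT' X (fun z => if (M : ℤ) ∣ z.re - r₁ ∧ (M : ℤ) ∣ z.im - r₂ then 1 else 0) =
      ((∑ z ∈ (ball 0 1 X).filter (fun z => (M : ℤ) ∣ z.re - r₁ ∧ (M : ℤ) ∣ z.im - r₂),
        (gl z : ℝ) : ℝ) : ℂ) := by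
    unfold TT'
    rw [Finset.sum_filter]
    push_cast
    apply Finset.sum_congr rfl
    intro z _
    split_ifs <;> simp
  rw [h2, Complex.norm_real, Real.norm_eq_abs] at h1
  exact h1

end Pool.Agent.W605.EC.P5
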