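import Pool.Agent.W996.EC.Cv
import Pool.Agent.Helper272.Arn.J5759

set_option autoImplicit false

namespace Pool.Agent.W605.EC

open Filter Topology Polynomial Pool.Agent.W996.EC

/-- moderate growth on a left half plane -/
def MG (c : ℝ) (f : ℂ → ℂ) : Prop :=
  ∃ (C : ℝ) (k : ℕ), 0 ≤ C ∧ ∀ w : ℂ, w.re < c → ‖f w‖ ≤ C * Real.exp (-(k : ℝ) * w.re)

theorem MG.const (c : ℝ) (a : ℂ) : MG c (fun _ => a) := by
  refine ⟨‖a‖, 0, norm_nonneg _, fun w hw => ?_⟩
  simp

theorem MG.mul {c : ℝ} {f g : ℂ → ℂ} (hf : MG c f) (hg : MG c g) : MG c (fun w => f w * g w) := by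
  obtain ⟨C, k, hC, h⟩ := hf
  obtain ⟨C', k', hC', h'⟩ := hg
  refine ⟨C * C', k + k', mul_nonneg hC hC', fun w hw => ?_⟩
  rw [norm_mul]
  refine (mul_le_mul (h w hw) (h' w hw) (norm_nonneg _) (by positivity)).trans (le_of_eq ?_)
  have : Real.exp (-((k + k' : ℕ) : ℝ) * w.re)
      = Real.exp (-(k : ℝ) * w.re) * Real.exp (-(k' : ℝ) * w.re) := by
    rw [← Real.exp_add]
    congr 1
    push_cast
    ring
  rw [this]
  ring

theorem MG.mono_exp {c : ℝ} (hc : c ≤ 0) {w : ℂ} (hw : w.re < c) {a b : ℝ} (hab : a ≤ b) :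
    Real.exp (-a * w.re) ≤ Real.exp (-b * w.re) := by
  apply Real.exp_le_exp.mpr
  nlinarith

theorem MG.add {c : ℝ} (hc : c ≤ 0) {f g : ℂ → ℂ} (hf : MG c f) (hg : MG c g) :
    MG c (fun w => f w + g w) := by
  obtain ⟨C, k, hC, h⟩ := hf
  obtain ⟨C', k', hC', h'⟩ := hg
  refine ⟨C + C', max k k', add_nonneg hC hC', fun w hw => ?_⟩
  refine (norm_add_le _ _).trans ?_
  rw [add_mul]
  refine add_le_add ((h w hw).trans ?_) ((h' w hw).trans ?_)
  · exact mul_le_mul_of_nonneg_left (MG.mono_exp hc hw (by exact_mod_cast le_max_left k k')) hC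
  · exact mul_le_mul_of_nonneg_left (MG.mono_exp hc hw (by exact_mod_cast le_max_right k k')) hC'

theorem MG.pow {c : ℝ} {f : ℂ → ℂ} (hf : MG c f) (n : ℕ) : MG c (fun w => f w ^ n) := by
  induction n with
  | zero => simpa using MG.const c 1
  | succ n ih => simpa only [pow_succ] using ih.mul hf

theorem MG.eval {c : ℝ} (hc : c ≤ 0) {x : ℂ → ℂ} (hx : MG c x) (Q : ℂ[X]) :
    MG c (fun w => Q.eval (x w)) := by
  induction Q using Polynomial.induction_on' with
  | add p q hp hq => simpa only [eval_add] using hp.add hc hq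
  | monomial n a => simpa only [eval_monomial] using (MG.const c a).mul (hx.pow n)

theorem MG.evalEval {c : ℝ} (hc : c ≤ 0) {x y : ℂ → ℂ} (hx : MG c x) (hy : MG c y) (Q : ℂ[X][X]) :
    MG c (fun w => Q.evalEval (x w) (y w)) := by
  induction Q using Polynomial.induction_on' with
  | add p q hp hq => simpa only [evalEval_add] using hp.add hc hq
  | monomial n a =>
    have e : ∀ w, (monomial n a : ℂ[X][X]).evalEval (x w) (y w) = a.eval (x w) * y w ^ n := by
      intro w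
      rw [Polynomial.evalEval, eval_monomial, eval_mul, eval_pow, eval_C]
    simpa only [e] using (hx.eval hc a).mul (hy.pow n)

theorem diff_evalEval {U : Set ℂ} {x y : ℂ → ℂ} (hx : DifferentiableOn ℂ x U)
    (hy : DifferentiableOn ℂ y U) (Q : ℂ[X][X]) :
    DifferentiableOn ℂ (fun w => Q.evalEval (x w) (y w)) U := by
  induction Q using Polynomial.induction_on' with
  | add p q hp hq => simp only [evalEval_add]; exact hp.add hq
  | monomial n a =>
    have e : ∀ w, (monomial n a : ℂ[X][X]).evalEval (x w) (y w) = a.eval (x w) * y w ^ n := by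
      intro w
      rw [Polynomial.evalEval, eval_monomial, eval_mul, eval_pow, eval_C]
    simp only [e]
    exact (a.differentiable.comp_differentiableOn hx).mul (hy.pow n)

theorem laurent1 {c₀ : ℝ} {g : ℂ → ℂ} (hg : DifferentiableOn ℂ g {w | w.re < c₀})
    (hper : ∀ w : ℂ, w.re < c₀ → g (w + 2 * Real.pi * Complex.I) = g w) (hm : MG c₀ g) :
    (∀ w : ℂ, w.re < c₀ → g w = 0) ∨ ∃ (l : ℤ) (G : ℂ → ℂ), AnalyticAt ℂ G 0 ∧ G 0 ≠ 0 ∧
      ∃ c₁ < c₀, ∀ w : ℂ, w.re < c₁ → g w = Complex.exp (l * w) * G (Complex.exp w) := by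
  obtain ⟨C, k, hC, h⟩ := hm
  have := AR.J5759.laurent c₀ 1 one_pos g hg (by
    intro w hw
    rw [Nat.cast_one, mul_one]
    exact hper w hw) C k h
  simpa only [Nat.cast_one, div_one] using this

theorem isPlace_of {T : Set (ℂ × ℂ)} {x y : ℂ → ℂ} {c₀ : ℝ} (hc : c₀ ≤ 0)
    (hT : ∀ w : ℂ, w.re < c₀ → (x w, y w) ∈ T)
    (hx : DifferentiableOn ℂ x {w | w.re < c₀}) (hy : DifferentiableOn ℂ y {w | w.re < c₀})
    (hpx : ∀ w : ℂ, w.re < c₀ → x (w + 2 * Real.pi * Complex.I) = x w)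
    (hpy : ∀ w : ℂ, w.re < c₀ → y (w + 2 * Real.pi * Complex.I) = y w)
    (hmx : MG c₀ x) (hmy : MG c₀ y) : IsPlace T (fun w => (x w, y w)) c₀ := by
  refine ⟨hT, hx, hy, ?_⟩
  rintro g ⟨A, B, hAB⟩
  have hA := laurent1 (diff_evalEval hx hy A) (fun w hw => by
    simp only [hpx w hw, hpy w hw]) (hmx.evalEval hc hmy A)
  have hB := laurent1 (diff_evalEval hx hy B) (fun w hw => by
    simp only [hpx w hw, hpy w hw]) (hmx.evalEval hc hmy B)
  have hg : ∀ w : ℂ, w.re < c₀ → g (x w, y w) = A.evalEval (x w) (y w) / B.evalEval (x w) (y w) :=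
    fun w hw => (hAB _ (hT w hw)).2
  rcases hA with hA | ⟨lA, GA, hGA, hGA0, cA, hcA, hA⟩
  · left
    intro w hw
    rw [hg w hw, hA w hw, zero_div]
  · right
    rcases hB with hB | ⟨lB, GB, hGB, hGB0, cB, hcB, hB⟩
    · exfalso
      have hw : ((c₀ - 1 : ℝ) : ℂ).re < c₀ := by simp
      exact (hAB _ (hT _ hw)).1 (hB _ hw)
    · refine ⟨lA - lB, fun z => GA z / GB z, min cA cB, hGA.div hGB hGB0, div_ne_zero hGA0 hGB0,
        (min_le_left _ _).trans hcA.le, ?_⟩
      intro w hw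
      have h1 : w.re < cA := hw.trans_le (min_le_left _ _)
      have h2 : w.re < cB := hw.trans_le (min_le_right _ _)
      have h3 : w.re < c₀ := h1.trans hcA
      change g (x w, y w) = _
      rw [hg w h3, hA w h1, hB w h2, mul_div_mul_comm]
      congr 1
      rw [← Complex.exp_sub]
      congr 1
      push_cast
      ring

theorem MG.exp_comp {N : ℕ} {c₀ : ℝ} (hc : c₀ ≤ 0) :
    MG c₀ (fun w => Complex.exp (N * w)) := by
  refine ⟨1, 0, zero_le_one, fun w hw => ?_⟩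
  rw [Complex.norm_exp]
  have : ((N : ℂ) * w).re = N * w.re := by simp
  rw [this]
  simp only [Nat.cast_zero, neg_zero, zero_mul, Real.exp_zero, mul_one]
  rw [Real.exp_le_one_iff]
  have : (0 : ℝ) ≤ N := Nat.cast_nonneg N
  nlinarith

theorem MG.exp_neg_comp {N : ℕ} {c₀ : ℝ} :
    MG c₀ (fun w => Complex.exp (-(N * w))) := by
  refine ⟨1, N, zero_le_one, fun w hw => ?_⟩
  rw [Complex.norm_exp]
  have : (-((N : ℂ) * w)).re = -(N : ℝ) * w.re := by simp
  rw [this, one_mul]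

theorem MG.root_comp {N : ℕ} {c c₀ : ℝ} {α : ℂ → ℂ} {C a : ℝ} (hc : c₀ ≤ 0)
    (hcc : ∀ w : ℂ, w.re < c₀ → ((N : ℂ) * w).re < c)
    (h : ∀ w : ℂ, w.re < c → ‖α w‖ ≤ C * Real.exp (-a * w.re)) :
    MG c₀ (fun w => α (N * w)) := by
  obtain ⟨k, hk⟩ := exists_nat_ge (a * N)
  refine ⟨|C|, k, abs_nonneg _, fun w hw => ?_⟩
  refine (h _ (hcc w hw)).trans ?_
  have e : ((N : ℂ) * w).re = N * w.re := by simp
  rw [e]
  have h1 : Real.exp (-a * (N * w.re)) ≤ Real.exp (-(k : ℝ) * w.re) := by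
    have := MG.mono_exp hc hw hk
    rwa [show -a * (N * w.re) = -(a * N) * w.re by ring]
  exact mul_le_mul (le_abs_self C) h1 (Real.exp_pos _).le (abs_nonneg _)

theorem exp_per (N : ℕ) (w : ℂ) :
    Complex.exp (N * (w + 2 * Real.pi * Complex.I)) = Complex.exp (N * w) := by
  rw [mul_add, Complex.exp_add, Complex.exp_nat_mul_two_pi_mul_I, mul_one]

theorem t_plf : S_plf := by
  intro F h hF τ
  -- radius
  obtain ⟨ε, hε, hne⟩ := AR.J5759.exists_ball_ne (h.comp (X + C τ)) (by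
    intro h0
    apply hF.hne
    have h1 : (h.comp (X + C τ)).comp (X - C τ) = h := by
      rw [comp_assoc]; simp
    rw [← h1, h0, zero_comp])
  have hne' : ∀ z : ℂ, 0 < ‖z - τ‖ → ‖z - τ‖ < ε → h.eval z ≠ 0 := by
    intro z h1 h2
    have := hne (z - τ) h1 h2
    simpa using this
  set c : ℝ := min 0 (Real.log ε) with hc
  have hce : Real.exp c ≤ ε := by
    rw [← Real.exp_log hε]
    exact Real.exp_le_exp.mpr (min_le_right _ _)
  obtain ⟨N, α, hN, hα1, hα2, hα3, hα4, hα5⟩ := AR.J5759.puiseux F τ c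
    (fun z h1 h2 => (hF.good z (hne' z h1 (h2.trans_le hce))).1)
    (fun z h1 h2 => (hF.good z (hne' z h1 (h2.trans_le hce))).2)
  have hNr : (0 : ℝ) < N := by exact_mod_cast hN
  obtain ⟨C, a, hCa⟩ := hα5 (c - 1) (by linarith)
  set c₀ : ℝ := (c - 1) / N with hc₀
  have hc00 : c₀ ≤ 0 := by
    apply div_nonpos_of_nonpos_of_nonneg _ hNr.le
    have : c ≤ 0 := min_le_left _ _
    linarith
  have hre : ∀ w : ℂ, w.re < c₀ → ((N : ℂ) * w).re < c - 1 := by
    intro w hw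
    have e : ((N : ℂ) * w).re = N * w.re := by simp
    rw [e]
    rw [hc₀, lt_div_iff₀ hNr] at hw
    linarith
  have hre' : ∀ w : ℂ, w.re < c₀ → ((N : ℂ) * w).re < c := fun w hw =>
    (hre w hw).trans (by linarith)
  refine ⟨c₀, N, fun j w => (τ + Complex.exp (N * w), α j (N * w)), hN, ?_, ?_⟩
  · intro j
    refine isPlace_of hc00 ?_ ?_ ?_ ?_ ?_ ?_ ?_
    · intro w hw
      refine ⟨(hα3 _ (hre' w hw) _).mpr ⟨j, rfl⟩, ?_⟩
      apply hne'
      · simp only [add_sub_cancel_left]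
        exact norm_pos_iff.mpr (Complex.exp_ne_zero _)
      · simp only [add_sub_cancel_left, Complex.norm_exp]
        exact (Real.exp_lt_exp.mpr (hre' w hw)).trans_le hce
    · apply Differentiable.differentiableOn
      fun_prop
    · exact (hα1 j).comp (by fun_prop) fun w hw => hre' w hw
    · intro w hw
      rw [exp_per]
    · intro w hw
      rw [← hα4 j (N * w) (hre' w hw)]
      congr 1
      ring
    · exact (MG.const _ τ).add hc00 (MG.exp_comp hc00)
    · exact MG.root_comp hc00 hre fun w hw => hCa j w hw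
  · intro w hw v hv
    obtain ⟨j, hj⟩ := (hα3 _ (hre' w hw) v).mp hv.1
    exact ⟨j, by simp only [hj]⟩

/-- reversed polynomial in the first variable -/
noncomputable def rv (K : ℕ) (F : ℂ[X][X]) : ℂ[X][X] :=
  ∑ i ∈ Finset.range (F.natDegree + 1), monomial i (reflect K (F.coeff i))

theorem rv_coeff (K : ℕ) (F : ℂ[X][X]) (i : ℕ) : (rv K F).coeff i = reflect K (F.coeff i) := by
  unfold rv
  rw [finsetSum_coeff]
  simp only [coeff_monomial]
  rw [Finset.sum_ite_eq']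
  split_ifs with h
  · rfl
  · have : F.coeff i = 0 := by
      apply coeff_eq_zero_of_natDegree_lt
      simpa using h
    rw [this, reflect_zero]

theorem rv_natDegree (K : ℕ) (F : ℂ[X][X]) : (rv K F).natDegree = F.natDegree := by
  by_cases hF : F = 0
  · subst hF
    simp [rv]
  · apply le_antisymm
    · rw [natDegree_le_iff_coeff_eq_zero]
      intro i hi
      rw [rv_coeff, coeff_eq_zero_of_natDegree_lt hi, reflect_zero]
    · apply le_natDegree_of_ne_zero
      rw [rv_coeff]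
      intro h0
      rw [reflect_eq_zero_iff] at h0
      exact hF (leadingCoeff_eq_zero.mp h0)

theorem eval_reflect {K : ℕ} {f : ℂ[X]} (hf : f.natDegree ≤ K) {ζ : ℂ} (hζ : ζ ≠ 0) :
    (reflect K f).eval ζ = ζ ^ K * f.eval ζ⁻¹ := by
  let : Invertible ζ⁻¹ := invertibleOfNonzero (inv_ne_zero hζ)
  have h := eval₂_reflect_mul_pow (RingHom.id ℂ) ζ⁻¹ K f hf
  rw [invOf_eq_inv, inv_inv] at h
  change (reflect K f).eval ζ * ζ⁻¹ ^ K = f.eval ζ⁻¹ at h
  rw [← h, mul_comm ((reflect K f).eval ζ), ← mul_assoc, ← mul_pow, mul_inv_cancel₀ hζ, one_pow,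
    one_mul]

theorem rv_map {K : ℕ} {F : ℂ[X][X]} (hK : ∀ i, (F.coeff i).natDegree ≤ K) {ζ : ℂ} (hζ : ζ ≠ 0) :
    (rv K F).map (evalRingHom ζ) = C (ζ ^ K) * F.map (evalRingHom ζ⁻¹) := by
  ext i
  rw [coeff_map, rv_coeff, coeff_C_mul, coeff_map, coe_evalRingHom, coe_evalRingHom,
    eval_reflect (hK i) hζ]

theorem exists_K (F : ℂ[X][X]) : ∃ K : ℕ, ∀ i, (F.coeff i).natDegree ≤ K := by
  refine ⟨(Finset.range (F.natDegree + 1)).sup fun i => (F.coeff i).natDegree, fun i => ?_⟩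
  by_cases hi : i ∈ Finset.range (F.natDegree + 1)
  · exact Finset.le_sup (f := fun i => (F.coeff i).natDegree) hi
  · have : F.coeff i = 0 := by
      apply coeff_eq_zero_of_natDegree_lt
      simpa using hi
    rw [this]
    simp

theorem puiseux' (P : ℂ[X][X]) (d : ℕ) (hd : P.natDegree = d) (τ : ℂ) (c₀ : ℝ)
    (hdeg : ∀ z, 0 < ‖z - τ‖ → ‖z - τ‖ < Real.exp c₀ →
      (P.map (evalRingHom z)).natDegree = P.natDegree)
    (hsep : ∀ z, 0 < ‖z - τ‖ → ‖z - τ‖ < Real.exp c₀ → (P.map (evalRingHom z)).Separable) :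
    ∃ (N : ℕ) (α : Fin d → ℂ → ℂ), 0 < N ∧
      (∀ j, DifferentiableOn ℂ (α j) {w | w.re < c₀}) ∧
      (∀ w : ℂ, w.re < c₀ → ∀ v, P.evalEval (τ + Complex.exp w) v = 0 ↔ ∃ j, v = α j w) ∧
      (∀ j, ∀ w : ℂ, w.re < c₀ → α j (w + 2 * Real.pi * Complex.I * N) = α j w) ∧
      (∀ c₁ < c₀, ∃ C a : ℝ, ∀ j, ∀ w : ℂ, w.re < c₁ → ‖α j w‖ ≤ C * Real.exp (-a * w.re)) := by
  subst hd
  obtain ⟨N, α, hN, hα1, hα2, hα3, hα4, hα5⟩ := AR.J5759.puiseux P τ c₀ hdeg hsep
  exact ⟨N, α, hN, hα1, hα3, hα4, hα5⟩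

theorem t_pli : S_pli := by
  intro F h hF
  obtain ⟨K, hK⟩ := exists_K F
  obtain ⟨ε, hε, hne⟩ := AR.J5759.exists_ball_ne (reflect h.natDegree h) (by
    rw [Ne, reflect_eq_zero_iff]; exact hF.hne)
  have hne' : ∀ z : ℂ, 0 < ‖z‖ → ‖z‖ < ε → h.eval z⁻¹ ≠ 0 := by
    intro z h1 h2
    have h3 := hne z h1 h2
    rw [eval_reflect le_rfl (norm_pos_iff.mp h1)] at h3
    exact right_ne_zero_of_mul h3
  set c : ℝ := min 0 (Real.log ε) with hc
  have hce : Real.exp c ≤ ε := by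
    rw [← Real.exp_log hε]
    exact Real.exp_le_exp.mpr (min_le_right _ _)
  have hmul : ∀ z : ℂ, 0 < ‖z - 0‖ → (rv K F).map (evalRingHom z)
      = C (z ^ K) * F.map (evalRingHom z⁻¹) := fun z hz =>
    rv_map hK (by rw [sub_zero] at hz; exact norm_pos_iff.mp hz)
  obtain ⟨N, α, hN, hα1, hα3, hα4, hα5⟩ := puiseux' (rv K F) F.natDegree (rv_natDegree K F) 0 c
    (fun z h1 h2 => by
      have hz : z ≠ 0 := by rw [sub_zero] at h1; exact norm_pos_iff.mp h1
      rw [hmul z h1, natDegree_C_mul (pow_ne_zero K hz), rv_natDegree]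
      rw [sub_zero] at h1 h2
      exact (hF.good z⁻¹ (hne' z h1 (h2.trans_le hce))).1)
    (fun z h1 h2 => by
      have hz : z ≠ 0 := by rw [sub_zero] at h1; exact norm_pos_iff.mp h1
      rw [hmul z h1]
      rw [sub_zero] at h1 h2
      apply Separable.unit_mul
      · rw [isUnit_C]
        exact (pow_ne_zero K hz).isUnit
      · exact (hF.good z⁻¹ (hne' z h1 (h2.trans_le hce))).2)
  have hNr : (0 : ℝ) < N := by exact_mod_cast hN
  obtain ⟨C', a, hCa⟩ := hα5 (c - 1) (by linarith)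
  set c₀ : ℝ := (c - 1) / N with hc₀
  have hc00 : c₀ ≤ 0 := by
    apply div_nonpos_of_nonpos_of_nonneg _ hNr.le
    have : c ≤ 0 := min_le_left _ _
    linarith
  have hre : ∀ w : ℂ, w.re < c₀ → ((N : ℂ) * w).re < c - 1 := by
    intro w hw
    have e : ((N : ℂ) * w).re = N * w.re := by simp
    rw [e]
    rw [hc₀, lt_div_iff₀ hNr] at hw
    linarith
  have hre' : ∀ w : ℂ, w.re < c₀ → ((N : ℂ) * w).re < c := fun w hw =>
    (hre w hw).trans (by linarith)
  have hroot : ∀ w : ℂ, w.re < c₀ → ∀ v, F.evalEval (Complex.exp (-(N * w))) v = 0 ↔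
      ∃ j, v = α j (N * w) := by
    intro w hw v
    rw [← hα3 _ (hre' w hw), zero_add, AR.J5759.evalEval_eq_map, AR.J5759.evalEval_eq_map,
      hmul _ (by rw [sub_zero]; exact norm_pos_iff.mpr (Complex.exp_ne_zero _)), eval_mul, eval_C,
      ← Complex.exp_neg]
    constructor
    · intro h1
      rw [h1, mul_zero]
    · intro h1
      exact (mul_eq_zero.mp h1).resolve_left (pow_ne_zero K (Complex.exp_ne_zero _))
  refine ⟨c₀, N, fun j w => (Complex.exp (-(N * w)), α j (N * w)), hN, ?_, ?_⟩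
  · intro j
    refine isPlace_of hc00 ?_ ?_ ?_ ?_ ?_ ?_ ?_
    · intro w hw
      refine ⟨(hroot w hw _).mpr ⟨j, rfl⟩, ?_⟩
      change h.eval (Complex.exp (-(N * w))) ≠ 0
      rw [Complex.exp_neg]
      apply hne'
      · exact norm_pos_iff.mpr (Complex.exp_ne_zero _)
      · rw [Complex.norm_exp]
        exact (Real.exp_lt_exp.mpr (hre' w hw)).trans_le hce
    · apply Differentiable.differentiableOn
      fun_prop
    · exact (hα1 j).comp (by fun_prop) fun w hw => hre' w hw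
    · intro w hw
      rw [Complex.exp_neg, Complex.exp_neg, exp_per]
    · intro w hw
      rw [← hα4 j (N * w) (hre' w hw)]
      congr 1
      ring
    · exact MG.exp_neg_comp
    · exact MG.root_comp hc00 hre fun w hw => hCa j w hw
  · intro w hw v hv
    obtain ⟨j, hj⟩ := (hroot w hw v).mp hv.1
    exact ⟨j, by simp only [hj]⟩

end Pool.Agent.W605.EC
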